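import Pool.Agent.Q54.EM.StmC

/-! # Project EM: TX -/

set_option autoImplicit false

namespace Pool.Agent.Q137.EM

open Finset Pool.Agent.Q54.EM

section tri

variable {ι : Type} [Fintype ι]

/-- triple sums -/
noncomputable def T3 (p : ι → ℝ) (G : ι → ι → ι → ℝ) : ℝ :=
  ∑ i, ∑ j, ∑ m, p i * p j * p m * G i j m

lemma T3_12 (p : ι → ℝ) (G : ι → ι → ι → ℝ) : T3 p (fun i j m => G j i m) = T3 p G := by
  unfold T3
  rw [Finset.sum_comm]
  refine Finset.sum_congr rfl fun i _ => Finset.sum_congr rfl fun j _ =>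
    Finset.sum_congr rfl fun m _ => ?_
  ring

lemma T3_23 (p : ι → ℝ) (G : ι → ι → ι → ℝ) : T3 p (fun i j m => G i m j) = T3 p G := by
  unfold T3
  refine Finset.sum_congr rfl fun i _ => ?_
  rw [Finset.sum_comm]
  refine Finset.sum_congr rfl fun j _ => Finset.sum_congr rfl fun m _ => ?_
  ring

lemma T3_add (p : ι → ℝ) (G H : ι → ι → ι → ℝ) :
    T3 p (fun i j m => G i j m + H i j m) = T3 p G + T3 p H := by
  unfold T3
  simp only [mul_add, Finset.sum_add_distrib]

lemma T3_sym (p : ι → ℝ) (G : ι → ι → ι → ℝ) :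
    T3 p (fun i j m => G i j m + G i m j + G j i m + G j m i + G m i j + G m j i) =
      6 * T3 p G := by
  have h1 : T3 p (fun i j m => G i m j) = T3 p G := T3_23 p G
  have h2 : T3 p (fun i j m => G j i m) = T3 p G := T3_12 p G
  have h3 : T3 p (fun i j m => G j m i) = T3 p G := by
    have := T3_12 p (fun i j m => G i m j)
    exact this.trans h1
  have h4 : T3 p (fun i j m => G m i j) = T3 p G := by
    have := T3_23 p (fun i j m => G j i m)
    exact this.trans h2
  have h5 : T3 p (fun i j m => G m j i) = T3 p G := by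
    have := T3_12 p (fun i j m => G m i j)
    exact this.trans h4
  rw [T3_add p (fun i j m => G i j m + G i m j + G j i m + G j m i + G m i j)
      (fun i j m => G m j i),
    T3_add p (fun i j m => G i j m + G i m j + G j i m + G j m i) (fun i j m => G m i j),
    T3_add p (fun i j m => G i j m + G i m j + G j i m) (fun i j m => G j m i),
    T3_add p (fun i j m => G i j m + G i m j) (fun i j m => G j i m),
    T3_add p (fun i j m => G i j m) (fun i j m => G i m j), h1, h2, h3, h4, h5]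
  ring

lemma T3_nonneg {p : ι → ℝ} (hp : ∀ i, 0 ≤ p i) {G : ι → ι → ι → ℝ}
    (h : ∀ i j m, 0 ≤ G i j m + G i m j + G j i m + G j m i + G m i j + G m j i) :
    0 ≤ T3 p G := by
  have h1 : 0 ≤ 6 * T3 p G := by
    rw [← T3_sym]
    unfold T3
    refine Finset.sum_nonneg fun i _ => Finset.sum_nonneg fun j _ =>
      Finset.sum_nonneg fun m _ => ?_
    exact mul_nonneg (mul_nonneg (mul_nonneg (hp i) (hp j)) (hp m)) (h i j m)
  linarith

/-- the variance as a double sum -/
lemma va_double {p : ι → ℝ} (hs : ∑ i, p i = 1) (x : ι → ℝ) :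
    ∑ i, ∑ j, p i * p j * (1 / 2 * (x i - x j) ^ 2) = va p x := by
  unfold va
  have h : ∀ i j, p i * p j * (1 / 2 * (x i - x j) ^ 2) =
      1 / 2 * ((p i * x i ^ 2) * p j) + 1 / 2 * (p i * (p j * x j ^ 2)) -
        (p i * x i) * (p j * x j) := fun i j => by ring
  simp only [h, Finset.sum_sub_distrib, Finset.sum_add_distrib, ← Finset.mul_sum,
    ← Finset.sum_mul, hs]
  ring

end tri

lemma core (a u w : ℝ) (ha : 0 ≤ a) (hu : 0 ≤ u) (hw : 0 ≤ w) (hl : a + u + w ≤ 1) :
    u ^ 2 * (a + u + w) * (1 - (a + u + w)) + (u + w) ^ 2 * (a + u) * (1 - (a + u)) +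
      w ^ 2 * a * (1 - a) ≤
    u ^ 2 * (a + u + w) * (1 - (a + u)) + (u + w) ^ 2 * (a + u) * (1 - (a + u + w)) +
      w ^ 2 * a * (1 - (a + u + w)) + (u ^ 2 * a + (u + w) ^ 2 * a + w ^ 2 * (a + u)) := by
  have h1 : 0 ≤ 2 * a ^ 2 * (u ^ 2 + u * w + w ^ 2) + 2 * a * u * (u + w) ^ 2 := by positivity
  have h2 : 0 ≤ (1 - (a + u + w)) * (u ^ 2 * a + (u + w) ^ 2 * a + w ^ 2 * (a + u)) :=
    mul_nonneg (by linarith) (by positivity)
  nlinarith [h1, h2]

lemma sorted {a b c l : ℝ} (hl : 0 < l) (ha : 0 ≤ a) (hab : a ≤ b) (hbc : b ≤ c) (hcl : c ≤ l) :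
    (b - a) ^ 2 * (c * (1 - c / l)) + (c - a) ^ 2 * (b * (1 - b / l)) +
      (c - b) ^ 2 * (a * (1 - a / l)) ≤
    c * ((b - a) ^ 2 * (1 - b / l)) + b * ((c - a) ^ 2 * (1 - c / l)) +
      a * ((c - b) ^ 2 * (1 - c / l)) + (a * (b - a) ^ 2 + a * (c - a) ^ 2 + b * (c - b) ^ 2) := by
  obtain ⟨α, hα⟩ : ∃ α, a = α * l := ⟨a / l, by field_simp⟩
  obtain ⟨u, hu⟩ : ∃ u, b - a = u * l := ⟨(b - a) / l, by field_simp⟩
  obtain ⟨w, hw⟩ : ∃ w, c - b = w * l := ⟨(c - b) / l, by field_simp⟩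
  have hb : b = (α + u) * l := by linarith
  have hc : c = (α + u + w) * l := by linarith
  have h0 : 0 ≤ α := by
    rw [hα] at ha
    exact nonneg_of_mul_nonneg_left ha hl
  have hu0 : 0 ≤ u := nonneg_of_mul_nonneg_left (by rw [← hu]; linarith) hl
  have hw0 : 0 ≤ w := nonneg_of_mul_nonneg_left (by rw [← hw]; linarith) hl
  have h1 : α + u + w ≤ 1 := by
    rw [hc] at hcl
    by_contra h
    push Not at h
    nlinarith
  have h2 := core α u w h0 hu0 hw0 h1
  have h3 : a / l = α := by rw [hα]; field_simp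
  have h4 : b / l = α + u := by rw [hb]; field_simp
  have h5 : c / l = α + u + w := by rw [hc]; field_simp
  have h6 : c - a = (u + w) * l := by linarith
  rw [h3, h4, h5, h6, hu, hw, hb, hc, hα]
  have h7 := mul_le_mul_of_nonneg_left h2 (pow_pos hl 3).le
  nlinarith [h7]

/-- the symmetrised term -/
lemma symG {a b c l : ℝ} (hl : 0 < l) (ha : 0 ≤ a) (hb : 0 ≤ b) (hc : 0 ≤ c) (hal : a ≤ l)
    (hbl : b ≤ l) (hcl : c ≤ l) (G : ℝ → ℝ → ℝ → ℝ)
    (hG : ∀ a b c, G a b c = c * ((max (a - b) 0) ^ 2 * (1 - a / l)) +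
      a * (max (b - a) 0) ^ 2 - 1 / 2 * (a - b) ^ 2 * (c * (1 - c / l))) :
    0 ≤ G a b c + G a c b + G b a c + G b c a + G c a b + G c b a := by
  have key : ∀ a b c : ℝ, 0 ≤ a → a ≤ b → b ≤ c → c ≤ l →
      0 ≤ G a b c + G a c b + G b a c + G b c a + G c a b + G c b a := by
    intro a b c ha hab hbc hcl
    have h := sorted hl ha hab hbc hcl
    simp only [hG]
    rw [max_eq_right (by linarith : a - b ≤ 0), max_eq_left (by linarith : 0 ≤ b - a),
      max_eq_right (by linarith : a - c ≤ 0), max_eq_left (by linarith : 0 ≤ c - a),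
      max_eq_right (by linarith : b - c ≤ 0), max_eq_left (by linarith : 0 ≤ c - b)]
    nlinarith [h]
  rcases le_total a b with h1 | h1 <;> rcases le_total b c with h2 | h2 <;>
    rcases le_total a c with h3 | h3
  · linarith [key a b c ha h1 h2 hcl]
  · linarith [key a b c ha h1 h2 hcl]
  · linarith [key a c b ha h3 h2 hbl]
  · linarith [key c a b hc h3 h1 hbl]
  · linarith [key b a c hb h1 h3 hcl]
  · linarith [key b c a hb h2 h3 hal]
  · linarith [key c b a hc h2 h1 hal]
  · linarith [key c b a hc h2 h1 hal]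

theorem tx : S_TX := by
  intro ι _ p x l hl hL hx
  obtain ⟨G, hG⟩ : ∃ G : ℝ → ℝ → ℝ → ℝ, ∀ a b c, G a b c =
      c * ((max (a - b) 0) ^ 2 * (1 - a / l)) +
      a * (max (b - a) 0) ^ 2 - 1 / 2 * (a - b) ^ 2 * (c * (1 - c / l)) := ⟨_, fun _ _ _ => rfl⟩
  have h0 : 0 ≤ T3 p (fun i j m => G (x i) (x j) (x m)) :=
    T3_nonneg (fun i => (hL.pos i).le) fun i j m =>
      symG hl (hL.nn i) (hL.nn j) (hL.nn m) (hx i) (hx j) (hx m) G hG
  have h1 : T3 p (fun i j m => G (x i) (x j) (x m)) =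
      mu p x * DD p x l + vw p x - va p x * (∑ i, p i * (x i * (1 - x i / l))) := by
    unfold T3
    have h2 : ∀ i j, ∑ m, p i * p j * p m * G (x i) (x j) (x m) =
        mu p x * (p i * p j * ((max (x i - x j) 0) ^ 2 * (1 - x i / l))) +
        p i * p j * (x i * (max (x j - x i) 0) ^ 2) -
        (p i * p j * (1 / 2 * (x i - x j) ^ 2)) * ∑ m, p m * (x m * (1 - x m / l)) := by
      intro i j
      have h3 : ∀ m, p i * p j * p m * G (x i) (x j) (x m) =
          (p m * x m) * (p i * p j * ((max (x i - x j) 0) ^ 2 * (1 - x i / l))) +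
          p m * (p i * p j * (x i * (max (x j - x i) 0) ^ 2)) -
          (p i * p j * (1 / 2 * (x i - x j) ^ 2)) * (p m * (x m * (1 - x m / l))) := by
        intro m
        rw [hG]
        ring
      simp only [h3]
      rw [Finset.sum_sub_distrib, Finset.sum_add_distrib, ← Finset.sum_mul, ← Finset.sum_mul,
        ← Finset.mul_sum, hL.sum, one_mul]
      rfl
    simp only [h2]
    simp only [Finset.sum_sub_distrib, Finset.sum_add_distrib]
    congr 1
    · congr 1
      unfold DD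
      simp only [Finset.mul_sum]
    · simp only [← Finset.sum_mul]
      rw [va_double hL.sum]
  linarith

end Pool.Agent.Q137.EM
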