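import Pool.Agent.Q137.EM.VP2

/-! # Project EM: VP1 -/

set_option autoImplicit false

namespace Pool.Agent.Q137.EM

open Finset Pool.Agent.Q54.EM

variable {ι : Type} [Fintype ι]

/-- `min (z, s) (z - s)` -/
noncomputable def MM (z s : ℝ) : ℝ := min z s * (z - s)

lemma MM_anti (z s : ℝ) : MM z s = -MM s z := by
  unfold MM
  rw [min_comm]
  ring

lemma MM_sq (z s : ℝ) : (max (z - s) 0) ^ 2 = z ^ 2 - z * s - MM z s := by
  unfold MM
  rcases le_total z s with h | h
  · rw [max_eq_right (by linarith : z - s ≤ 0), min_eq_left h]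
    ring
  · rw [max_eq_left (by linarith : 0 ≤ z - s), min_eq_right h]
    ring

lemma psi_NN (p x : ι → ℝ) (s : ℝ) :
    psi p x s = ∑ z, p z * x z ^ 2 - mu p x * s - ∑ z, p z * MM (x z) s := by
  unfold psi mu
  rw [Finset.sum_mul, ← Finset.sum_sub_distrib, ← Finset.sum_sub_distrib]
  refine Finset.sum_congr rfl fun z _ => ?_
  rw [MM_sq]
  ring

/-- the inequality for a fixed value of `R` -/
lemma fixed_r {p x : ι → ℝ} (hL : Law p x) (I : ι → ℝ) (r : ℝ)
    (hI : ∀ a, I a = if x a < r then 1 else 0) (f : ι → ℝ) (hf : f = fun i => psi p x (x i)) :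
    ∑ a, ∑ z, p a * p z * (1 / 2 * ((f z - f a) ^ 2 - mu p x * ((x a - x z) * (f z - f a)))) *
      (I a * I z) ≤
    va p x * ∑ a, ∑ z, p a * p z * (x a * max (x z - x a) 0) * (I a - I z) := by
  have hf0 : ∀ i, 0 ≤ f i := by
    intro i
    rw [hf]
    exact psi_nonneg hL _
  have hfa : ∀ i j, x i ≤ x j → f j ≤ f i := by
    intro i j h
    rw [hf]
    exact psi_anti hL h
  have hfm : ∑ y, p y * f y = va p x := by rw [hf]; exact psi_mean hL
  have hI0 : ∀ a, 0 ≤ I a ∧ I a ≤ 1 := by
    intro a
    rw [hI]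
    split_ifs <;> constructor <;> norm_num
  obtain ⟨N, hN⟩ : ∃ N : ι → ℝ, ∀ a, N a = ∑ z, p z * MM (x z) (x a) := ⟨_, fun _ => rfl⟩
  obtain ⟨q, hq⟩ : ∃ q : ι → ℝ, ∀ a, q a = p a * I a := ⟨_, fun _ => rfl⟩
  have hq0 : ∀ a, 0 ≤ q a := fun a => by
    rw [hq]
    exact mul_nonneg (hL.pos a).le (hI0 a).1
  obtain ⟨P, hP⟩ : ∃ P : ℝ, P = ∑ b, q b := ⟨_, rfl⟩
  obtain ⟨Fb, hFb⟩ : ∃ Fb : ℝ, Fb = ∑ b, q b * f b := ⟨_, rfl⟩
  have hfN : ∀ a z, f z - f a = (N a - N z) - mu p x * (x z - x a) := by
    intro a z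
    rw [hf]
    simp only
    rw [psi_NN, psi_NN, hN, hN]
    ring
  have hP0 : 0 ≤ P := by
    rw [hP]
    exact Finset.sum_nonneg fun b _ => hq0 b
  -- rewrite the left side
  have h1 : ∑ a, ∑ z, p a * p z * (1 / 2 * ((f z - f a) ^ 2 - mu p x *
      ((x a - x z) * (f z - f a)))) * (I a * I z) = ∑ a, q a * N a * (Fb - P * f a) := by
    have e1 : ∀ a z, p a * p z * (1 / 2 * ((f z - f a) ^ 2 - mu p x *
        ((x a - x z) * (f z - f a)))) * (I a * I z) =
        1 / 2 * ((q a * N a) * (q z * f z)) - 1 / 2 * (q a * (q z * f z * N z)) -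
          1 / 2 * ((q a * f a * N a) * q z) + 1 / 2 * ((q a * f a) * (q z * N z)) := by
      intro a z
      have e2 : (f z - f a) ^ 2 - mu p x * ((x a - x z) * (f z - f a)) =
          (f z - f a) * (N a - N z) := by
        have := hfN a z
        have e3 : N a - N z = f z - f a + mu p x * (x z - x a) := by linarith
        rw [e3]
        ring
      rw [e2, hq, hq]
      ring
    simp only [e1, Finset.sum_sub_distrib, Finset.sum_add_distrib, ← Finset.mul_sum,
      ← Finset.sum_mul]
    have e4 : ∑ a, q a * N a * (Fb - P * f a) = (∑ a, q a * N a) * Fb -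
        P * ∑ a, q a * f a * N a := by
      rw [Finset.sum_mul, Finset.mul_sum, ← Finset.sum_sub_distrib]
      refine Finset.sum_congr rfl fun a _ => ?_
      ring
    rw [e4, ← hFb, ← hP]
    ring
  have hD : ∀ a, Fb - P * f a ≤ va p x := by
    intro a
    have e1 : Fb ≤ va p x := by
      rw [hFb, ← hfm]
      refine Finset.sum_le_sum fun b _ => mul_le_mul_of_nonneg_right ?_ (hf0 b)
      rw [hq]
      exact mul_le_of_le_one_right (hL.pos b).le (hI0 b).2
    have e2 := mul_nonneg hP0 (hf0 a)
    linarith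
  have h2 : ∑ a, q a * N a * (Fb - P * f a) =
      ∑ a, ∑ z, q a * q z * MM (x z) (x a) * (Fb - P * f a) +
      ∑ a, ∑ z, q a * (p z * (1 - I z)) * MM (x z) (x a) * (Fb - P * f a) := by
    rw [← Finset.sum_add_distrib]
    refine Finset.sum_congr rfl fun a _ => ?_
    rw [hN, Finset.mul_sum, Finset.sum_mul, ← Finset.sum_add_distrib]
    refine Finset.sum_congr rfl fun z _ => ?_
    rw [hq z]
    ring
  have h3 : ∑ a, ∑ z, q a * q z * MM (x z) (x a) * (Fb - P * f a) ≤ 0 := by
    have e1 : ∑ a, ∑ z, q a * q z * MM (x z) (x a) = 0 := by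
      have : ∑ a, ∑ z, q a * q z * MM (x z) (x a) = -∑ a, ∑ z, q a * q z * MM (x z) (x a) := by
        conv_lhs => rw [Finset.sum_comm]
        rw [← Finset.sum_neg_distrib]
        refine Finset.sum_congr rfl fun a _ => ?_
        rw [← Finset.sum_neg_distrib]
        refine Finset.sum_congr rfl fun z _ => ?_
        rw [MM_anti (x a) (x z)]
        ring
      linarith
    have e2 : ∑ a, ∑ z, q a * q z * MM (x z) (x a) * f z =
        -∑ a, ∑ z, q a * q z * MM (x z) (x a) * f a := by
      rw [Finset.sum_comm, ← Finset.sum_neg_distrib]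
      refine Finset.sum_congr rfl fun a _ => ?_
      rw [← Finset.sum_neg_distrib]
      refine Finset.sum_congr rfl fun z _ => ?_
      rw [MM_anti (x a) (x z)]
      ring
    have e3 : 0 ≤ ∑ a, ∑ z, q a * q z * (MM (x z) (x a) * (f a - f z)) := by
      refine Finset.sum_nonneg fun a _ => Finset.sum_nonneg fun z _ => ?_
      refine mul_nonneg (mul_nonneg (hq0 a) (hq0 z)) ?_
      unfold MM
      rcases le_total (x a) (x z) with h | h
      · rw [min_eq_right h]
        have := hfa a z h
        exact mul_nonneg (mul_nonneg (hL.nn a) (by linarith)) (by linarith)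
      · rw [min_eq_left h]
        have h4 := hfa z a h
        have h5 : x z * (x z - x a) * (f a - f z) = x z * ((x a - x z) * (f z - f a)) := by ring
        rw [h5]
        exact mul_nonneg (hL.nn z) (mul_nonneg (by linarith) (by linarith))
    have e4 : ∑ a, ∑ z, q a * q z * (MM (x z) (x a) * (f a - f z)) =
        2 * ∑ a, ∑ z, q a * q z * MM (x z) (x a) * f a := by
      have e5 : ∑ a, ∑ z, q a * q z * (MM (x z) (x a) * (f a - f z)) =
          ∑ a, ∑ z, q a * q z * MM (x z) (x a) * f a -
          ∑ a, ∑ z, q a * q z * MM (x z) (x a) * f z := by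
        rw [← Finset.sum_sub_distrib]
        refine Finset.sum_congr rfl fun a _ => ?_
        rw [← Finset.sum_sub_distrib]
        refine Finset.sum_congr rfl fun z _ => ?_
        ring
      rw [e5, e2]
      ring
    have e6 : ∑ a, ∑ z, q a * q z * MM (x z) (x a) * (Fb - P * f a) =
        Fb * (∑ a, ∑ z, q a * q z * MM (x z) (x a)) -
        P * ∑ a, ∑ z, q a * q z * MM (x z) (x a) * f a := by
      rw [Finset.mul_sum, Finset.mul_sum, ← Finset.sum_sub_distrib]
      refine Finset.sum_congr rfl fun a _ => ?_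
      rw [Finset.mul_sum, Finset.mul_sum, ← Finset.sum_sub_distrib]
      refine Finset.sum_congr rfl fun z _ => ?_
      ring
    rw [e6, e1, mul_zero, zero_sub]
    have e7 : 0 ≤ ∑ a, ∑ z, q a * q z * MM (x z) (x a) * f a := by linarith
    have := mul_nonneg hP0 e7
    linarith
  have h4 : ∑ a, ∑ z, q a * (p z * (1 - I z)) * MM (x z) (x a) * (Fb - P * f a) ≤
      va p x * ∑ a, ∑ z, p a * p z * (x a * max (x z - x a) 0) * (I a - I z) := by
    rw [Finset.mul_sum]
    refine Finset.sum_le_sum fun a _ => ?_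
    rw [Finset.mul_sum]
    refine Finset.sum_le_sum fun z _ => ?_
    rw [hq]
    by_cases ha : x a < r
    · have i1 : I a = 1 := by rw [hI, if_pos ha]
      by_cases hz : x z < r
      · have i2 : I z = 1 := by rw [hI, if_pos hz]
        rw [i1, i2]
        simp
      · have i2 : I z = 0 := by rw [hI, if_neg hz]
        rw [i1, i2]
        have h5 : x a ≤ x z := by linarith
        unfold MM
        rw [min_eq_right h5, max_eq_left (by linarith : 0 ≤ x z - x a)]
        have h6 : 0 ≤ p a * p z * (x a * (x z - x a)) :=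
          mul_nonneg (mul_nonneg (hL.pos a).le (hL.pos z).le)
            (mul_nonneg (hL.nn a) (by linarith))
        have h7 := mul_le_mul_of_nonneg_left (hD a) h6
        refine le_trans (le_of_eq ?_) (h7.trans (le_of_eq ?_))
        · ring
        · ring
    · have i1 : I a = 0 := by rw [hI, if_neg ha]
      by_cases hz : x z < r
      · have i2 : I z = 1 := by rw [hI, if_pos hz]
        rw [i1, i2, max_eq_right (by linarith : x z - x a ≤ 0)]
        simp
      · have i2 : I z = 0 := by rw [hI, if_neg hz]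
        rw [i1, i2]
        simp
  rw [h1, h2]
  linarith

theorem vp1 : S_LMB → S_POS → S_EEL → S_VP1 := by
  intro _ _ hEEL ι _ p x k l _ hL _ hK
  classical
  obtain ⟨f, hf⟩ : ∃ f : ι → ℝ, f = fun i => psi p x (x i) := ⟨_, rfl⟩
  rw [← hf]
  obtain ⟨-, -, e3, e4, -, e6⟩ := hEEL ι p x (k - 1)
  -- indicator of one variable
  obtain ⟨I, hI⟩ : ∃ I : ℝ → ι → ℝ, ∀ s a, I s a = if x a < k - s then 1 else 0 :=
    ⟨_, fun _ _ => rfl⟩
  have hPRmax : ∀ a z, PR p x (k - 1) (k - max (x a) (x z)) =
      EE p x (k - 1) (fun s => I s a * I s z) := by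
    intro a z
    unfold PR
    congr 1
    funext s
    rw [hI, hI]
    by_cases h1 : x a < k - s
    · by_cases h2 : x z < k - s
      · rw [if_pos h1, if_pos h2, if_pos]
        · norm_num
        · have := max_lt h1 h2
          linarith
      · rw [if_pos h1, if_neg h2, if_neg]
        · norm_num
        · intro h3
          have := le_max_right (x a) (x z)
          exact h2 (by linarith)
    · rw [if_neg h1, zero_mul, if_neg]
      intro h3
      have := le_max_left (x a) (x z)
      exact h1 (by linarith)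
  have hPR1 : ∀ a, PR p x (k - 1) (k - x a) = EE p x (k - 1) (fun s => I s a) := by
    intro a
    unfold PR
    congr 1
    funext s
    rw [hI]
    by_cases h : x a < k - s
    · rw [if_pos h, if_pos (by linarith)]
    · rw [if_neg h, if_neg (by linarith)]
  have hk0 : (0 : ℝ) ≤ k := Nat.cast_nonneg _
  -- left side as an expectation
  have hleft : ∑ a, ∑ z, p a * p z * (1 / 2 * ((f z - f a) ^ 2 - mu p x *
      ((x a - x z) * (f z - f a)))) * PR p x (k - 1) (k - max (x a) (x z)) =
      EE p x (k - 1) (fun s => ∑ a, ∑ z, p a * p z * (1 / 2 * ((f z - f a) ^ 2 - mu p x *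
      ((x a - x z) * (f z - f a)))) * (I s a * I s z)) := by
    rw [e6 ι univ (fun a s => ∑ z, p a * p z * (1 / 2 * ((f z - f a) ^ 2 - mu p x *
      ((x a - x z) * (f z - f a)))) * (I s a * I s z))]
    refine Finset.sum_congr rfl fun a _ => ?_
    rw [e6 ι univ (fun z s => p a * p z * (1 / 2 * ((f z - f a) ^ 2 - mu p x *
      ((x a - x z) * (f z - f a)))) * (I s a * I s z))]
    refine Finset.sum_congr rfl fun z _ => ?_
    rw [e3, hPRmax]
  have hright : ∑ a, ∑ z, p a * p z * (x a * max (x z - x a) 0) *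
      (PR p x (k - 1) (k - x a) - PR p x (k - 1) (k - x z)) =
      EE p x (k - 1) (fun s => ∑ a, ∑ z, p a * p z * (x a * max (x z - x a) 0) *
        (I s a - I s z)) := by
    rw [e6 ι univ (fun a s => ∑ z, p a * p z * (x a * max (x z - x a) 0) * (I s a - I s z))]
    refine Finset.sum_congr rfl fun a _ => ?_
    rw [e6 ι univ (fun z s => p a * p z * (x a * max (x z - x a) 0) * (I s a - I s z))]
    refine Finset.sum_congr rfl fun z _ => ?_
    rw [e3, (hEEL ι p x (k - 1)).2.1 (fun s => I s a) (fun s => I s z), hPR1, hPR1]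
  have hmain : ∑ a, ∑ z, p a * p z * (1 / 2 * ((f z - f a) ^ 2 - mu p x *
      ((x a - x z) * (f z - f a)))) * PR p x (k - 1) (k - max (x a) (x z)) ≤
      va p x * ∑ a, ∑ z, p a * p z * (x a * max (x z - x a) 0) *
      (PR p x (k - 1) (k - x a) - PR p x (k - 1) (k - x z)) := by
    rw [hleft, hright, ← e3]
    refine e4 (fun i => (hL.pos i).le) hL.nn _ _ fun s _ => ?_
    exact fixed_r hL (I s) (k - s) (hI s) f hf
  have hr : ∑ a, ∑ z, p a * p z * (x a * max (x z - x a) 0) *
      (PR p x (k - 1) (k - x a) - PR p x (k - 1) (k - x z)) =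
      PR p x (k - 1) k / l * vw p x := by
    unfold vw
    rw [Finset.mul_sum]
    refine Finset.sum_congr rfl fun a _ => ?_
    rw [Finset.mul_sum]
    refine Finset.sum_congr rfl fun z _ => ?_
    rw [hK.2 a, hK.2 z]
    rcases le_total (x a) (x z) with h | h
    · rw [max_eq_left (by linarith : 0 ≤ x z - x a)]
      ring
    · rw [max_eq_right (by linarith : x z - x a ≤ 0)]
      ring
  rw [hr] at hmain
  have hl : PP k p x f - mu p x * CC k p x f = k * ∑ a, ∑ z, p a * p z *
      (1 / 2 * ((f z - f a) ^ 2 - mu p x * ((x a - x z) * (f z - f a)))) *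
      PR p x (k - 1) (k - max (x a) (x z)) := by
    unfold PP CC
    simp only [Finset.mul_sum]
    rw [← Finset.sum_sub_distrib]
    refine Finset.sum_congr rfl fun a _ => ?_
    rw [← Finset.sum_sub_distrib]
    refine Finset.sum_congr rfl fun z _ => ?_
    ring
  have h9 := mul_le_mul_of_nonneg_left hmain hk0
  rw [← hl] at h9
  have h10 : (k : ℝ) * (va p x * (PR p x (k - 1) k / l * vw p x)) =
      k * va p x * PR p x (k - 1) k * vw p x / l := by ring
  rw [h10] at h9
  linarith

end Pool.Agent.Q137.EM
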