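import Pool.Agent.Q137.EM.CRB

/-! # Project EM: VP2 -/

set_option autoImplicit false

namespace Pool.Agent.Q137.EM

open Finset Pool.Agent.Q54.EM

variable {ι : Type} [Fintype ι]

lemma psi_nonneg {p x : ι → ℝ} (hL : Law p x) (y : ℝ) : 0 ≤ psi p x y :=
  Finset.sum_nonneg fun z _ => mul_nonneg (hL.pos z).le (sq_nonneg _)

lemma psi_anti {p x : ι → ℝ} (hL : Law p x) {y y' : ℝ} (h : y ≤ y') :
    psi p x y' ≤ psi p x y := by
  refine Finset.sum_le_sum fun z _ => mul_le_mul_of_nonneg_left ?_ (hL.pos z).le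
  exact pow_le_pow_left₀ (le_max_right _ _) (max_le_max (by linarith) le_rfl) 2

lemma psi_mean {p x : ι → ℝ} (hL : Law p x) : ∑ y, p y * psi p x (x y) = va p x := by
  rw [← va_onesided hL.sum]
  refine Finset.sum_congr rfl fun b _ => ?_
  unfold psi
  rw [Finset.mul_sum]
  refine Finset.sum_congr rfl fun z _ => ?_
  ring

lemma psi_vw (p x : ι → ℝ) : ∑ y, p y * x y * psi p x (x y) = vw p x := by
  unfold vw psi
  refine Finset.sum_congr rfl fun b _ => ?_
  rw [Finset.mul_sum]
  refine Finset.sum_congr rfl fun z _ => ?_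
  ring

open Classical in
lemma half_sum {p x : ι → ℝ} (H : ι → ι → ℝ) (hs : ∀ b z, H b z = H z b)
    (h0 : ∀ b z, x b = x z → H b z = 0) :
    2 * ∑ b, ∑ z, p b * p z * (if x b < x z then H b z else 0) = ∑ b, ∑ z, p b * p z * H b z := by
  have h1 : ∑ b, ∑ z, p b * p z * (if x z < x b then H b z else 0) =
      ∑ b, ∑ z, p b * p z * (if x b < x z then H b z else 0) := by
    rw [Finset.sum_comm]
    refine Finset.sum_congr rfl fun b _ => Finset.sum_congr rfl fun z _ => ?_
    rw [hs z b]
    ring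
  have h2 : ∑ b, ∑ z, p b * p z * H b z = ∑ b, ∑ z, p b * p z * (if x b < x z then H b z else 0) +
      ∑ b, ∑ z, p b * p z * (if x z < x b then H b z else 0) := by
    rw [← Finset.sum_add_distrib]
    refine Finset.sum_congr rfl fun b _ => ?_
    rw [← Finset.sum_add_distrib]
    refine Finset.sum_congr rfl fun z _ => ?_
    rcases lt_trichotomy (x b) (x z) with h | h | h
    · rw [if_pos h, if_neg (by linarith)]
      ring
    · rw [if_neg (by linarith), if_neg (by linarith), h0 b z h]
      ring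
    · rw [if_neg (by linarith), if_pos h]
      ring
  rw [h2, h1]
  ring

theorem vp2 : S_LMB → S_POS → S_EEL → S_VP2 := by
  intro _ hPOS _ ι _ p x k l hk hL hm hK
  classical
  obtain ⟨f, hf⟩ : ∃ f : ι → ℝ, f = fun i => psi p x (x i) := ⟨_, rfl⟩
  have hfa : ∀ i j, x i ≤ x j → f j ≤ f i := by
    intro i j h
    rw [hf]
    exact psi_anti hL h
  have hf0 : ∀ i, 0 ≤ f i := by
    intro i
    rw [hf]
    exact psi_nonneg hL _
  have hfm : ∑ y, p y * f y = va p x := by rw [hf]; exact psi_mean hL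
  have hfv : ∑ y, p y * x y * f y = vw p x := by rw [hf]; exact psi_vw p x
  have h1 := CR_le hPOS hL hk (f := f) (g := fun _ => va p x) hfa (by
    intro a
    rw [← hfm]
    refine Finset.sum_le_sum fun y _ => mul_le_mul_of_nonneg_left ?_ (hL.pos y).le
    exact max_le (by linarith [hf0 a]) (hf0 y))
  rw [← hf]
  refine h1.trans (le_of_eq ?_)
  obtain ⟨n, rfl⟩ : ∃ n, k = n + 2 := ⟨k - 2, by omega⟩
  have e1 : n + 2 - 2 = n := by omega
  have e2 : n + 2 - 1 = n + 1 := by omega
  rw [e1, e2]
  have h2 : ∀ b z, ∑ a, p a * va p x * (PR p x n (((n + 2 : ℕ) : ℝ) - x a - x b) -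
      PR p x n (((n + 2 : ℕ) : ℝ) - x a - x z)) =
      va p x * PR p x (n + 1) (n + 2 : ℕ) / l * (x z - x b) := by
    intro b z
    have h3 : ∀ b, ∑ a, p a * PR p x n (((n + 2 : ℕ) : ℝ) - x a - x b) =
        PR p x (n + 1) (n + 2 : ℕ) * (1 - x b / l) := by
      intro b
      have h4 := hK.2 b
      rw [e2] at h4
      rw [← h4, PR_succ]
      refine Finset.sum_congr rfl fun a _ => ?_
      rw [sub_right_comm]
    have h5 : ∑ a, p a * va p x * (PR p x n (((n + 2 : ℕ) : ℝ) - x a - x b) -
        PR p x n (((n + 2 : ℕ) : ℝ) - x a - x z)) =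
        va p x * (∑ a, p a * PR p x n (((n + 2 : ℕ) : ℝ) - x a - x b)) -
        va p x * (∑ a, p a * PR p x n (((n + 2 : ℕ) : ℝ) - x a - x z)) := by
      rw [Finset.mul_sum, Finset.mul_sum, ← Finset.sum_sub_distrib]
      refine Finset.sum_congr rfl fun a _ => ?_
      ring
    rw [h5, h3, h3]
    ring
  simp only [h2]
  have h6 : ∀ b z, p b * p z * (if x b < x z then (f b - f z) *
      (va p x * PR p x (n + 1) (n + 2 : ℕ) / l * (x z - x b)) else 0) =
      va p x * PR p x (n + 1) (n + 2 : ℕ) / l *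
      (p b * p z * (if x b < x z then (f b - f z) * (x z - x b) else 0)) := by
    intro b z
    split_ifs <;> ring
  simp only [h6, ← Finset.mul_sum]
  have h7 := half_sum (p := p) (x := x) (fun b z => (f b - f z) * (x z - x b))
    (fun b z => by ring) (fun b z h => by rw [h]; ring)
  have h8 : ∑ b, ∑ z, p b * p z * ((f b - f z) * (x z - x b)) =
      2 * (mu p x * va p x - vw p x) := by
    have h9 : ∀ b z, p b * p z * ((f b - f z) * (x z - x b)) =
        (p b * f b) * (p z * x z) + (p b * x b) * (p z * f z) - (p b * x b * f b) * p z -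
          p b * (p z * x z * f z) := fun b z => by ring
    simp only [h9, Finset.sum_sub_distrib, Finset.sum_add_distrib, ← Finset.mul_sum,
      ← Finset.sum_mul, hL.sum, hfm, hfv]
    unfold mu
    ring
  rw [h8] at h7
  have h10 : ∑ b, ∑ z, p b * p z * (if x b < x z then (f b - f z) * (x z - x b) else 0) =
      mu p x * va p x - vw p x := by linarith
  rw [h10]
  ring

end Pool.Agent.Q137.EM
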