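import Pool.Agent.Q137.EM.CRB

/-! # Project EM: VX -/

set_option autoImplicit false

namespace Pool.Agent.Q137.EM

open Finset Pool.Agent.Q54.EM

theorem vx : S_VB → S_LMB → S_POS → S_EEL → S_SZB → S_VX := by
  intro hVB hLMB hPOS hEEL hSZB ι _ p x k l hk hL hm hK
  classical
  have hk1 : 1 ≤ k := by omega
  have hW : 0 < PR p x k k := (hPOS ι p x hL).1 k k le_rfl hk1 hm
  have hw1 : 0 < PR p x (k - 1) k := (hPOS ι p x hL).1 (k - 1) k (by omega) hk1 hm
  obtain ⟨hlam, hxl⟩ := hLMB ι p x k l hk1 hL hm hK
  have hl := hK.1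
  have hkR : (0 : ℝ) < k := by exact_mod_cast hk1
  have hkk : ((k : ℕ) : ℝ) = (k : ℝ) := rfl
  have hlamdef : lam k p x = PR p x k k / PR p x (k - 1) k := rfl
  have hlam0 : 0 < lam k p x := by rw [hlamdef]; positivity
  have hWlam : PR p x k k = lam k p x * PR p x (k - 1) k := by
    rw [hlamdef]
    field_simp
  have hfa : ∀ i j, x i ≤ x j → (fun i => -x i) j ≤ (fun i => -x i) i := by
    intro i j h
    simp only
    linarith
  -- the double sum
  have hDD : ∑ a, ∑ z, p a * p z * ((x a - x z) ^ 2 * (1 - max (x a) (x z) / l)) =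
      2 * DD p x l := by
    have e1 : ∀ a z, p a * p z * ((x a - x z) ^ 2 * (1 - max (x a) (x z) / l)) =
        p a * p z * ((max (x a - x z) 0) ^ 2 * (1 - x a / l)) +
        p a * p z * ((max (x z - x a) 0) ^ 2 * (1 - x z / l)) := by
      intro a z
      rcases le_total (x a) (x z) with h | h
      · rw [max_eq_right (by linarith : x a - x z ≤ 0), max_eq_left (by linarith : 0 ≤ x z - x a),
          max_eq_right h]
        ring
      · rw [max_eq_left (by linarith : 0 ≤ x a - x z), max_eq_right (by linarith : x z - x a ≤ 0),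
          max_eq_left h]
        ring
    have e2 : ∑ a, ∑ z, p a * p z * ((max (x z - x a) 0) ^ 2 * (1 - x z / l)) = DD p x l := by
      unfold DD
      rw [Finset.sum_comm]
      refine Finset.sum_congr rfl fun b _ => Finset.sum_congr rfl fun z _ => ?_
      ring
    simp only [e1, Finset.sum_add_distrib]
    rw [e2]
    unfold DD
    ring
  have hCC : CC k p x (fun i => -x i) = k * PR p x (k - 1) k * DD p x l := by
    unfold CC
    have e1 : ∀ a z, p a * p z * ((x a - x z) * (-x z - -x a)) *
        PR p x (k - 1) (k - max (x a) (x z)) = PR p x (k - 1) k *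
        (p a * p z * ((x a - x z) ^ 2 * (1 - max (x a) (x z) / l))) := by
      intro a z
      rw [KK_max hK]
      ring
    simp only [e1, ← Finset.mul_sum]
    rw [hDD]
    ring
  have hPP : PP k p x (fun i => -x i) = k * PR p x (k - 1) k * DD p x l := by
    unfold PP
    have e1 : ∀ a z, p a * p z * (-x z - -x a) ^ 2 *
        PR p x (k - 1) (k - max (x a) (x z)) = PR p x (k - 1) k *
        (p a * p z * ((x a - x z) ^ 2 * (1 - max (x a) (x z) / l))) := by
      intro a z
      rw [KK_max hK]
      ring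
    simp only [e1, ← Finset.mul_sum]
    rw [hDD]
    ring
  have hCR : CR k p x (fun i => -x i) ≤ k ^ 2 * PR p x k k * va p x / l := by
    have h1 := CR_le hPOS hL hk (f := fun i => -x i) (g := fun a => lam k p x * x a) hfa (by
      intro a
      have e1 : ∀ y, p y * max (-x y - -x a) 0 ≤ x a * p y - x a / l * (p y * x y) := by
        intro y
        have e2 : max (-x y - -x a) 0 ≤ x a - x a / l * x y := by
          refine max_le ?_ ?_
          · have e3 : x a / l * x y ≤ 1 * x y :=
              mul_le_mul_of_nonneg_right ((div_le_one hl).2 (hxl a)) (hL.nn y)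
            linarith
          · have e3 : x a / l * x y ≤ x a / l * l :=
              mul_le_mul_of_nonneg_left (hxl y) (div_nonneg (hL.nn a) hl.le)
            rw [div_mul_cancel₀ _ hl.ne'] at e3
            linarith
        have := mul_le_mul_of_nonneg_left e2 (hL.pos y).le
        refine this.trans (le_of_eq ?_)
        ring
      refine (Finset.sum_le_sum fun y _ => e1 y).trans (le_of_eq ?_)
      rw [Finset.sum_sub_distrib, ← Finset.mul_sum, ← Finset.mul_sum, hL.sum, hlam]
      unfold mu
      field_simp)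
    refine h1.trans ?_
    obtain ⟨n, rfl⟩ : ∃ n, k = n + 2 := ⟨k - 2, by omega⟩
    have e1 : n + 2 - 2 = n := by omega
    have e2 : n + 2 - 1 = n + 1 := by omega
    rw [e1]
    rw [e2] at hWlam hw1
    have h2 : ∀ b z, x b < x z → (((n + 2 : ℕ) : ℝ) - 1) *
        ∑ a, p a * (lam (n + 2) p x * x a) *
          (PR p x n (((n + 2 : ℕ) : ℝ) - x a - x b) - PR p x n (((n + 2 : ℕ) : ℝ) - x a - x z)) ≤
        ((n + 2 : ℕ) : ℝ) * PR p x (n + 2) (n + 2 : ℕ) / l * (x z - x b) := by
      intro b z hbz
      obtain ⟨F, hF⟩ : ∃ F : ℝ → ℝ, F = fun s => (if s < ((n + 2 : ℕ) : ℝ) - x b then (1 : ℝ) else 0) -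
        (if s < ((n + 2 : ℕ) : ℝ) - x z then (1 : ℝ) else 0) := ⟨_, rfl⟩
      have h3 := hSZB ι p x n F
      have h4 : ∀ a, EE p x n (fun s => F (s + x a)) =
          PR p x n (((n + 2 : ℕ) : ℝ) - x a - x b) - PR p x n (((n + 2 : ℕ) : ℝ) - x a - x z) := by
        intro a
        rw [hF]
        unfold PR
        rw [← (hEEL ι p x n).2.1]
        congr 1
        funext s
        have e3 : ∀ c : ℝ, (s + x a < ((n + 2 : ℕ) : ℝ) - c) ↔ (s < ((n + 2 : ℕ) : ℝ) - x a - c) := by
          intro c
          constructor <;> intro h <;> linarith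
        simp only [e3]
      have h5 : EE p x (n + 1) (fun s => s * F s) ≤
          ((n + 2 : ℕ) : ℝ) * EE p x (n + 1) F := by
        rw [← (hEEL ι p x (n + 1)).2.2.1]
        refine (hEEL ι p x (n + 1)).2.2.2.1 (fun i => (hL.pos i).le) hL.nn _ _ fun s hs => ?_
        rw [hF]
        simp only
        by_cases q1 : s < ((n + 2 : ℕ) : ℝ) - x z
        · rw [if_pos q1, if_pos (by linarith)]
          simp
        · by_cases q2 : s < ((n + 2 : ℕ) : ℝ) - x b
          · rw [if_neg q1, if_pos q2]
            have := hL.nn b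
            linarith
          · rw [if_neg q1, if_neg q2]
            simp
      have h6 : EE p x (n + 1) F = PR p x (n + 1) (n + 2 : ℕ) * ((x z - x b) / l) := by
        have e4 : EE p x (n + 1) F = PR p x (n + 1) (((n + 2 : ℕ) : ℝ) - x b) -
            PR p x (n + 1) (((n + 2 : ℕ) : ℝ) - x z) := by
          rw [hF]
          unfold PR
          rw [← (hEEL ι p x (n + 1)).2.1]
        have e5 := hK.2 b
        have e6 := hK.2 z
        rw [e2] at e5 e6
        rw [e4, e5, e6]
        ring
      have h7 : (((n + 2 : ℕ) : ℝ) - 1) *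
        ∑ a, p a * (lam (n + 2) p x * x a) *
          (PR p x n (((n + 2 : ℕ) : ℝ) - x a - x b) - PR p x n (((n + 2 : ℕ) : ℝ) - x a - x z)) =
          lam (n + 2) p x * EE p x (n + 1) (fun s => s * F s) := by
        rw [h3]
        simp only [h4]
        rw [Finset.mul_sum, Finset.mul_sum, Finset.mul_sum]
        refine Finset.sum_congr rfl fun a _ => ?_
        push_cast
        ring
      rw [h7]
      refine (mul_le_mul_of_nonneg_left h5 hlam0.le).trans (le_of_eq ?_)
      rw [h6, hWlam]
      ring
    have h8 : (((n + 2 : ℕ) : ℝ)) * (((n + 2 : ℕ) : ℝ) - 1) *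
        ∑ b, ∑ z, p b * p z * (if x b < x z then (-x b - -x z) *
        ∑ a, p a * (lam (n + 2) p x * x a) *
          (PR p x n (((n + 2 : ℕ) : ℝ) - x a - x b) - PR p x n (((n + 2 : ℕ) : ℝ) - x a - x z))
          else 0) ≤ (((n + 2 : ℕ) : ℝ)) * ∑ b, ∑ z,
          (((n + 2 : ℕ) : ℝ) * PR p x (n + 2) (n + 2 : ℕ) / l) *
            (p b * p z * (max (x z - x b) 0) ^ 2) := by
      rw [mul_assoc]
      refine mul_le_mul_of_nonneg_left ?_ hkR.le
      rw [Finset.mul_sum]
      refine Finset.sum_le_sum fun b _ => ?_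
      rw [Finset.mul_sum]
      refine Finset.sum_le_sum fun z _ => ?_
      split_ifs with hbz
      · have h9 := h2 b z hbz
        have h10 : 0 ≤ p b * p z * (x z - x b) :=
          mul_nonneg (mul_nonneg (hL.pos b).le (hL.pos z).le) (by linarith)
        have h11 := mul_le_mul_of_nonneg_left h9 h10
        rw [max_eq_left (by linarith : 0 ≤ x z - x b)]
        refine le_trans (le_of_eq ?_) (h11.trans (le_of_eq ?_))
        · ring
        · ring
      · rw [max_eq_right (by linarith [not_lt.1 hbz] : x z - x b ≤ 0)]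
        simp
    refine h8.trans (le_of_eq ?_)
    simp only [← Finset.mul_sum]
    rw [va_onesided hL.sum]
    ring
  have hvb := hVB ι p x (fun i => -x i) k hk hL hW hfa
  have hQ := VV_nn hEEL hL hW
  have hVV : G2 p x k k - GP p x k k ^ 2 / PR p x k k = PR p x k k * VV k p x := by
    unfold VV hh
    field_simp
  rw [hVV] at hvb hQ
  rw [hCC, hPP] at hvb
  have h12 : (k * PR p x (k - 1) k * DD p x l) ^ 2 ≤ PR p x k k * VV k p x *
      (k * PR p x (k - 1) k * DD p x l + k ^ 2 * PR p x k k * va p x / l) :=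
    hvb.trans (mul_le_mul_of_nonneg_left (by linarith) hQ)
  have h13 : k * PR p x (k - 1) k * DD p x l = PR p x k k * (k / lam k p x * DD p x l) := by
    rw [hlamdef]
    field_simp
  rw [h13] at h12
  have h14 : (PR p x k k) ^ 2 * (k / lam k p x * DD p x l) ^ 2 ≤ (PR p x k k) ^ 2 *
      (VV k p x * (k / lam k p x * DD p x l + k ^ 2 * va p x / l)) := by
    refine le_trans (le_of_eq ?_) (h12.trans (le_of_eq ?_))
    · ring
    · ring
  exact le_of_mul_le_mul_left h14 (by positivity)

end Pool.Agent.Q137.EM
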