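import Pool.Agent.Q54.EM.StmC

/-! # Project EM: XX -/

set_option autoImplicit false

namespace Pool.Agent.Q137.EM

open Finset Pool.Agent.Q54.EM

theorem xx : S_VX → S_TX → S_IDT → S_COV → S_LH → S_THT → S_LMB → S_POS → S_XX := by
  intro hVX hTX hIDT hCOV _ hTHT hLMB hPOS ι _ p x k l hk hL hm0 hm hK hv
  have hk1 : 1 ≤ k := by omega
  have hkR : (0 : ℝ) < k := by exact_mod_cast hk1
  have hW : 0 < PR p x k k := (hPOS ι p x hL).1 k k le_rfl hk1 hm
  have hw1 : 0 < PR p x (k - 1) k := (hPOS ι p x hL).1 (k - 1) k (by omega) hk1 hm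
  obtain ⟨hlam, hxl⟩ := hLMB ι p x k l hk1 hL hm hK
  have hl := hK.1
  have hid := hIDT ι p x k l hk1 hL hm hK
  have hcov := hCOV ι p x k l hk1 hL hm hK
  have hth := hTHT ι p x k l hk1 hL hm hK
  have htx := hTX ι p x l hl hL hxl
  have hvx := hVX ι p x k l hk hL hm hK
  have hvw : 0 ≤ vw p x := by
    unfold vw
    refine Finset.sum_nonneg fun i _ => Finset.sum_nonneg fun j _ => ?_
    exact mul_nonneg (mul_nonneg (hL.pos i).le (hL.pos j).le)
      (mul_nonneg (hL.nn i) (sq_nonneg _))
  have hDD : 0 ≤ DD p x l := by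
    unfold DD
    refine Finset.sum_nonneg fun i _ => Finset.sum_nonneg fun j _ => ?_
    refine mul_nonneg (mul_nonneg (hL.pos i).le (hL.pos j).le)
      (mul_nonneg (sq_nonneg _) ?_)
    have := (div_le_one hl).2 (hxl i)
    linarith
  have hla0 : 0 < lam k p x := by
    unfold lam
    positivity
  rw [← hth] at htx
  generalize lam k p x = L at *
  generalize hh k p x = h at *
  generalize VV k p x = V at *
  generalize et k p x = E at *
  generalize vw p x = vw' at *
  generalize DD p x l = D at *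
  generalize va p x = v at *
  generalize mu p x = m at *
  clear hTX hVX hIDT hCOV hTHT hLMB hPOS hth
  obtain ⟨g, hg⟩ : ∃ g : ℝ, g = √L := ⟨_, rfl⟩
  have hg2 : g ^ 2 = L := by rw [hg]; exact Real.sq_sqrt hla0.le
  rw [← hg]
  have hE : 0 < E := by
    have h1 : 0 < E * L * l := by
      rw [← hid]
      positivity
    by_contra hc
    push Not at hc
    have h2 : E * L * l ≤ 0 :=
      mul_nonpos_of_nonpos_of_nonneg (mul_nonpos_of_nonpos_of_nonneg hc hla0.le) hl.le
    linarith
  obtain ⟨w, hw⟩ : ∃ w : ℝ, w = vw' / v := ⟨_, rfl⟩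
  have hwv : vw' = w * v := by rw [hw]; field_simp
  have hw0 : 0 ≤ w := by rw [hw]; positivity
  obtain ⟨q, hq⟩ : ∃ q : ℝ, q = 1 - L := ⟨_, rfl⟩
  have hql : m = q * l := by
    rw [hq, hlam]
    field_simp
    ring
  have hq0 : 0 < q := by
    by_contra hc
    push Not at hc
    have : q * l ≤ 0 := mul_nonpos_of_nonpos_of_nonneg hc hl.le
    linarith
  obtain ⟨c, hc⟩ : ∃ c : ℝ, c = k / L * D / E := ⟨_, rfl⟩
  have hcE : k / L * D = E * c := by rw [hc]; field_simp
  have hc0 : 0 ≤ c := by rw [hc]; positivity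
  -- COV
  have hV : V ≤ E * (l - h - w) := by
    have h1 : k * vw' / l = w * (E * L) := by
      rw [hwv]
      have : k * (w * v) / l = w * (k * v) / l := by ring
      rw [this, hid]
      field_simp
    rw [h1, hid] at hcov
    have h2 : L * V ≤ L * (E * (l - h - w)) := by
      have e1 : L * (E * (l - h - w)) = E * L * l - L * (h * E) - w * (E * L) := by ring
      have e2 : L * (V + h * E) = L * V + L * (h * E) := by ring
      linarith
    exact le_of_mul_le_mul_left h2 hla0
  -- VX
  have hkv : k ^ 2 * v / l = E * (k * L) := by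
    have : (k : ℝ) ^ 2 * v / l = k * (k * v) / l := by ring
    rw [this, hid]
    field_simp
  rw [hcE, hkv] at hvx
  have hd0 : 0 < k * L := by positivity
  have hV0 : 0 ≤ V := by
    by_contra hneg
    push Not at hneg
    have h1 : 0 < E * c + E * (k * L) := by positivity
    have h2 : V * (E * c + E * (k * L)) < 0 := mul_neg_of_neg_of_pos hneg h1
    have h3 := sq_nonneg (E * c)
    linarith
  obtain ⟨y, hy⟩ : ∃ y : ℝ, y = l - h - w := ⟨_, rfl⟩
  rw [← hy] at hV
  have hy0 : 0 ≤ y := by
    by_contra hneg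
    push Not at hneg
    have : E * y < 0 := mul_neg_of_pos_of_neg hE hneg
    linarith
  have hcy : c ^ 2 ≤ y * (c + k * L) := by
    have h1 : (E * c) ^ 2 ≤ E * y * (E * c + E * (k * L)) :=
      hvx.trans (mul_le_mul_of_nonneg_right hV (by positivity))
    have h2 : E ^ 2 * c ^ 2 ≤ E ^ 2 * (y * (c + k * L)) := by
      have e1 : (E * c) ^ 2 = E ^ 2 * c ^ 2 := by ring
      have e2 : E * y * (E * c + E * (k * L)) = E ^ 2 * (y * (c + k * L)) := by ring
      linarith
    exact le_of_mul_le_mul_left h2 (by positivity)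
  -- TX
  obtain ⟨t, ht⟩ : ∃ t : ℝ, t = 1 - h / k := ⟨_, rfl⟩
  rw [← ht] at htx ⊢
  have hX : L * t - w ≤ q * c := by
    have h1 : v * (L * t) ≤ q * l * D + w * v := by
      rw [← hql, ← hwv]
      exact htx
    have h2 : D = E * c * L / k := by
      rw [← hcE]
      field_simp
    have h3 : q * l * D = q * c * v := by
      have h4 : q * l * D = q * c * (E * L * l) / k := by
        rw [h2]
        ring
      rw [h4, ← hid]
      field_simp
    rw [h3] at h1
    have h5 : v * (L * t - w) ≤ v * (q * c) := by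
      have e1 : v * (L * t - w) = v * (L * t) - w * v := by ring
      have e2 : v * (q * c) = q * c * v := by ring
      linarith
    exact le_of_mul_le_mul_left h5 hv
  obtain ⟨X, hXd⟩ : ∃ X : ℝ, X = (L * t - w) / q := ⟨_, rfl⟩
  have hqX : q * X = L * t - w := by rw [hXd]; field_simp
  have hXc : X ≤ c := by
    rw [hXd, div_le_iff₀ hq0]
    linarith
  have hLk : 0 ≤ L * (k * (1 - g) ^ 2) := by positivity
  rcases le_or_gt X 0 with hX0 | hX0
  · have h1 : q * X ≤ 0 := mul_nonpos_of_nonneg_of_nonpos hq0.le hX0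
    have h2 : L * (t - k * (1 - g) ^ 2) = L * t - L * (k * (1 - g) ^ 2) := by ring
    rw [h2]
    linarith
  · obtain ⟨d, hd⟩ : ∃ d : ℝ, d = k * L := ⟨_, rfl⟩
    rw [← hd] at hcy hd0
    have h1 : X ^ 2 * (c + d) ≤ c ^ 2 * (X + d) := by
      have e1 : 0 ≤ c * X * (c - X) := by
        have : 0 ≤ c - X := by linarith
        positivity
      have e2 : 0 ≤ d * ((c - X) * (c + X)) := by
        have : 0 ≤ c - X := by linarith
        positivity
      have e3 : c ^ 2 * (X + d) - X ^ 2 * (c + d) = c * X * (c - X) + d * ((c - X) * (c + X)) := by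
        ring
      linarith
    have h2 : X ^ 2 * (c + d) ≤ y * (X + d) * (c + d) := by
      have e1 := mul_le_mul_of_nonneg_right hcy (show 0 ≤ X + d by positivity)
      have e2 : y * (c + d) * (X + d) = y * (X + d) * (c + d) := by ring
      linarith
    have h3 : X ^ 2 ≤ y * (X + d) := le_of_mul_le_mul_right h2 (by positivity)
    obtain ⟨s, hs⟩ : ∃ s : ℝ, s = X + d := ⟨_, rfl⟩
    have hXs : X = s - d := by linarith
    have hs0 : 0 < s := by rw [hs]; positivity
    rw [← hs] at h3
    have h4 : 0 ≤ (y - q * X + d * (1 - g) ^ 2) * s := by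
      have e1 : 0 ≤ (g * s - d) ^ 2 := sq_nonneg _
      have e2 : X ^ 2 - q * X * s + d * (1 - g) ^ 2 * s = (g * s - d) ^ 2 := by
        rw [hXs, hq, ← hg2]
        ring
      have e3 : (y - q * X + d * (1 - g) ^ 2) * s = y * s - X ^ 2 + (X ^ 2 - q * X * s +
        d * (1 - g) ^ 2 * s) := by ring
      rw [e3, e2]
      linarith
    have h5 : 0 ≤ y - q * X + d * (1 - g) ^ 2 := nonneg_of_mul_nonneg_left h4 hs0
    have h6 : L * (t - k * (1 - g) ^ 2) = L * t - d * (1 - g) ^ 2 := by rw [hd]; ring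
    rw [h6]
    linarith

end Pool.Agent.Q137.EM
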