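import Pool.Agent.Q54.EM.StmC

/-! # Project EM: the off-diagonal term (common lemmas for VX, VP1 and VP2) -/

set_option autoImplicit false

namespace Pool.Agent.Q137.EM

open Finset Pool.Agent.Q54.EM

variable {ι : Type} [Fintype ι]

/-- the variance as a one-sided double sum -/
lemma va_onesided {p : ι → ℝ} (hs : ∑ i, p i = 1) (x : ι → ℝ) :
    ∑ b, ∑ z, p b * p z * (max (x z - x b) 0) ^ 2 = va p x := by
  have h1 : ∑ b, ∑ z, p b * p z * (max (x b - x z) 0) ^ 2 =
      ∑ b, ∑ z, p b * p z * (max (x z - x b) 0) ^ 2 := by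
    rw [Finset.sum_comm]
    refine Finset.sum_congr rfl fun b _ => Finset.sum_congr rfl fun z _ => ?_
    ring
  have h2 : ∑ b, ∑ z, p b * p z * (max (x b - x z) 0) ^ 2 +
      ∑ b, ∑ z, p b * p z * (max (x z - x b) 0) ^ 2 = 2 * va p x := by
    rw [← Finset.sum_add_distrib]
    simp only [← Finset.sum_add_distrib]
    have h3 : ∀ b z, p b * p z * (max (x b - x z) 0) ^ 2 + p b * p z * (max (x z - x b) 0) ^ 2 =
        (p b * x b ^ 2) * p z + p b * (p z * x z ^ 2) - 2 * ((p b * x b) * (p z * x z)) := by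
      intro b z
      rcases le_total (x b) (x z) with h | h
      · rw [max_eq_right (by linarith : x b - x z ≤ 0), max_eq_left (by linarith : 0 ≤ x z - x b)]
        ring
      · rw [max_eq_left (by linarith : 0 ≤ x b - x z), max_eq_right (by linarith : x z - x b ≤ 0)]
        ring
    simp only [h3, Finset.sum_sub_distrib, Finset.sum_add_distrib, ← Finset.mul_sum,
      ← Finset.sum_mul, hs]
    unfold va
    ring
  linarith

lemma KK_max {k : ℕ} {p x : ι → ℝ} {l : ℝ} (hK : KK k p x l) (a z : ι) :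
    PR p x (k - 1) (k - max (x a) (x z)) = PR p x (k - 1) k * (1 - max (x a) (x z) / l) := by
  rcases le_total (x a) (x z) with h | h
  · rw [max_eq_right h]
    exact hK.2 z
  · rw [max_eq_left h]
    exact hK.2 a

open Classical in
/-- the bound of the off-diagonal term -/
lemma CR_le (hPOS : S_POS) {p x : ι → ℝ} (hL : Law p x) {k : ℕ} (hk : 2 ≤ k) {f g : ι → ℝ}
    (hf : ∀ i j, x i ≤ x j → f j ≤ f i) (hg : ∀ a, ∑ y, p y * max (f y - f a) 0 ≤ g a) :
    CR k p x f ≤ (k : ℝ) * (k - 1) * ∑ b, ∑ z, p b * p z * (if x b < x z then (f b - f z) *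
      ∑ a, p a * g a * (PR p x (k - 2) (k - x a - x b) - PR p x (k - 2) (k - x a - x z)) else 0) := by
  have hmono := (hPOS ι p x hL).2.2.1 (k - 2)
  obtain ⟨Δ, hΔ⟩ : ∃ Δ : ι → ι → ι → ℝ, ∀ a b z, Δ a b z =
    PR p x (k - 2) (k - x a - x b) - PR p x (k - 2) (k - x a - x z) := ⟨_, fun _ _ _ => rfl⟩
  have h1 : ∀ a b z, (f b - f z) * max (Δ a b z) 0 =
      if x b < x z then (f b - f z) * Δ a b z else 0 := by
    intro a b z
    split_ifs with h
    · rw [max_eq_left]
      rw [hΔ]
      have := hmono (k - x a - x z) (k - x a - x b) (by linarith)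
      linarith
    · rw [max_eq_right, mul_zero]
      rw [hΔ]
      have := hmono (k - x a - x b) (k - x a - x z) (by linarith)
      linarith
  have h1' : ∀ a b z, 0 ≤ (f b - f z) * max (Δ a b z) 0 := by
    intro a b z
    rw [h1]
    split_ifs with h
    · refine mul_nonneg ?_ ?_
      · linarith [hf b z h.le]
      · rw [hΔ]
        have := hmono (k - x a - x z) (k - x a - x b) (by linarith)
        linarith
    · exact le_rfl
  have hk1 : (0 : ℝ) ≤ (k : ℝ) * (k - 1) := by
    have : (2 : ℝ) ≤ k := by exact_mod_cast hk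
    nlinarith
  unfold CR
  refine mul_le_mul_of_nonneg_left ?_ hk1
  have h2 : ∀ a, ∑ y, ∑ b, ∑ z, p a * p y * (p b * p z) * (max (f y - f a) 0 * (f b - f z)) *
      max (PR p x (k - 2) (k - x a - x b) - PR p x (k - 2) (k - x a - x z)) 0 =
      (∑ y, p y * max (f y - f a) 0) *
        ∑ b, ∑ z, p a * (p b * p z) * ((f b - f z) * max (Δ a b z) 0) := by
    intro a
    rw [Finset.sum_mul]
    refine Finset.sum_congr rfl fun y _ => ?_
    rw [Finset.mul_sum]
    refine Finset.sum_congr rfl fun b _ => ?_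
    rw [Finset.mul_sum]
    refine Finset.sum_congr rfl fun z _ => ?_
    rw [hΔ]
    ring
  have h3 : ∀ a, 0 ≤ ∑ b, ∑ z, p a * (p b * p z) * ((f b - f z) * max (Δ a b z) 0) := by
    intro a
    refine Finset.sum_nonneg fun b _ => Finset.sum_nonneg fun z _ => ?_
    have := hL.pos a
    have := hL.pos b
    have := hL.pos z
    exact mul_nonneg (by positivity) (h1' a b z)
  calc ∑ a, ∑ y, ∑ b, ∑ z, p a * p y * (p b * p z) * (max (f y - f a) 0 * (f b - f z)) *
        max (PR p x (k - 2) (k - x a - x b) - PR p x (k - 2) (k - x a - x z)) 0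
      = ∑ a, (∑ y, p y * max (f y - f a) 0) *
        ∑ b, ∑ z, p a * (p b * p z) * ((f b - f z) * max (Δ a b z) 0) :=
        Finset.sum_congr rfl fun a _ => h2 a
    _ ≤ ∑ a, g a * ∑ b, ∑ z, p a * (p b * p z) * ((f b - f z) * max (Δ a b z) 0) :=
        Finset.sum_le_sum fun a _ => mul_le_mul_of_nonneg_right (hg a) (h3 a)
    _ = ∑ b, ∑ z, ∑ a, g a * (p a * (p b * p z) * ((f b - f z) * max (Δ a b z) 0)) := by
        simp only [Finset.mul_sum]
        rw [Finset.sum_comm]
        refine Finset.sum_congr rfl fun b _ => ?_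
        rw [Finset.sum_comm]
    _ = _ := by
        refine Finset.sum_congr rfl fun b _ => Finset.sum_congr rfl fun z _ => ?_
        simp only [h1]
        split_ifs with h
        · simp only [Finset.mul_sum]
          refine Finset.sum_congr rfl fun a _ => ?_
          rw [hΔ]
          ring
        · simp

/-- `PR` of one more variable -/
lemma PR_succ (p x : ι → ℝ) (n : ℕ) (y : ℝ) :
    PR p x (n + 1) y = ∑ i, p i * PR p x n (y - x i) := by
  unfold PR
  rw [EE]
  refine Finset.sum_congr rfl fun i _ => ?_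
  congr 1
  congr 1
  funext s
  by_cases h : s + x i < y
  · rw [if_pos h, if_pos (by linarith)]
  · rw [if_neg h, if_neg (by linarith)]

/-- Cauchy-Schwarz -/
lemma VV_nn (hEEL : S_EEL) {p x : ι → ℝ} (hL : Law p x) {k : ℕ} (hW : 0 < PR p x k k) :
    0 ≤ G2 p x k k - GP p x k k ^ 2 / PR p x k k := by
  obtain ⟨h1, h2, h3, h4, -, -⟩ := hEEL ι p x k
  obtain ⟨c, hc⟩ : ∃ c : ℝ, c = GP p x k k / PR p x k k := ⟨_, rfl⟩
  have e1 : 0 ≤ EE p x k (fun s => (max (k - s) 0 - c * (if s < k then 1 else 0)) ^ 2) := by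
    have := h4 (fun i => (hL.pos i).le) hL.nn (fun _ => 0)
      (fun s => (max (k - s) 0 - c * (if s < k then 1 else 0)) ^ 2) (fun s _ => sq_nonneg _)
    have h0 := h3 0 (fun _ => 0)
    simp only [zero_mul] at h0
    rw [h0] at this
    exact this
  have e2 : EE p x k (fun s => (max (k - s) 0 - c * (if s < k then 1 else 0)) ^ 2) =
      G2 p x k k - 2 * c * GP p x k k + c ^ 2 * PR p x k k := by
    unfold G2 GP PR
    rw [← h3 (2 * c), ← h3 (c ^ 2), ← h2, ← h1]
    congr 1
    funext s
    by_cases h : s < k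
    · simp only [if_pos h]
      ring
    · simp only [if_neg h]
      rw [max_eq_right (by linarith)]
      ring
  rw [e2, hc] at e1
  have e3 : G2 p x k k - 2 * (GP p x k k / PR p x k k) * GP p x k k +
      (GP p x k k / PR p x k k) ^ 2 * PR p x k k = G2 p x k k - GP p x k k ^ 2 / PR p x k k := by
    field_simp
    ring
  rw [e3] at e1
  exact e1

end Pool.Agent.Q137.EM
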